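import Mathlib

/-!
# Rational positive solutions of rational linear systems with a real positive solution

`G` is a subgroup of `ℤ^E` (relations). If real vectors `P c` whose coordinates are rational
multiples of fixed positive reals are limits of `([m P] - [n P]) / (m - n)` with
`[m P] - [n P] ∈ G` then the reals can be replaced by positive integers.
-/

set_option autoImplicit false

namespace Pool.Agent.H83

open Finset

/-- A `ℚ`-linear map `ℝ → ℚ` with `1 ↦ 1` and close to the identity on finitely many given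
reals. -/
theorem exists_rat_functional (n : ℕ) (x : Fin n → ℝ) (ε : ℝ) (hε0 : 0 < ε) :
    ∃ φ : ℝ →ₗ[ℚ] ℚ, φ 1 = 1 ∧ ∀ i, |((φ (x i) : ℚ) : ℝ) - x i| < ε := by
  classical
  -- the finite dimensional space spanned by `1` and the `x i`
  let W : Submodule ℚ ℝ := Submodule.span ℚ (insert (1 : ℝ) (Set.range x))
  have hWfd : FiniteDimensional ℚ W :=
    FiniteDimensional.span_of_finite ℚ ((Set.finite_range x).insert 1)
  have h1W : (1 : ℝ) ∈ W := Submodule.subset_span (Set.mem_insert _ _)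
  have hxW : ∀ i, x i ∈ W := fun i =>
    Submodule.subset_span (Set.mem_insert_of_mem _ ⟨i, rfl⟩)
  -- a basis of `W` which contains `1`
  have hli : LinearIndepOn ℚ id ({(⟨1, h1W⟩ : W)} : Set W) := by
    refine LinearIndepOn.singleton ?_
    intro h
    have := congrArg Subtype.val h
    simp at this
  let b := Module.Basis.extend hli
  have hbfin : Finite (hli.extend (Set.subset_univ _)) := Module.Finite.finite_basis b
  have hbft : Fintype (hli.extend (Set.subset_univ _)) := Fintype.ofFinite _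
  let i0 : hli.extend (Set.subset_univ _) := ⟨⟨1, h1W⟩, hli.subset_extend _ rfl⟩
  have hb0 : b i0 = ⟨1, h1W⟩ := by
    simp [b, i0]
  -- bound for the coefficients
  obtain ⟨M, hM0, hM⟩ : ∃ M : ℝ, 0 < M ∧ ∀ i j, |((b.repr ⟨x i, hxW i⟩ j : ℚ) : ℝ)| ≤ M := by
    refine ⟨1 + ∑ i, ∑ j, |((b.repr ⟨x i, hxW i⟩ j : ℚ) : ℝ)|, ?_, ?_⟩
    · positivity
    · intro i j
      have h1 : |((b.repr ⟨x i, hxW i⟩ j : ℚ) : ℝ)| ≤
          ∑ j, |((b.repr ⟨x i, hxW i⟩ j : ℚ) : ℝ)| :=
        Finset.single_le_sum (f := fun j => |((b.repr ⟨x i, hxW i⟩ j : ℚ) : ℝ)|)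
          (fun _ _ => abs_nonneg _) (Finset.mem_univ j)
      have h2 : ∑ j, |((b.repr ⟨x i, hxW i⟩ j : ℚ) : ℝ)| ≤
          ∑ i, ∑ j, |((b.repr ⟨x i, hxW i⟩ j : ℚ) : ℝ)| :=
        Finset.single_le_sum (f := fun i => ∑ j, |((b.repr ⟨x i, hxW i⟩ j : ℚ) : ℝ)|)
          (fun _ _ => Finset.sum_nonneg fun _ _ => abs_nonneg _) (Finset.mem_univ i)
      linarith
  set N : ℝ := (Fintype.card (hli.extend (Set.subset_univ _)) : ℝ) + 1 with hN
  have hN0 : 0 < N := by positivity
  -- rational approximations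
  have happ : ∀ j : hli.extend (Set.subset_univ _), ∃ r : ℚ,
      |(r : ℝ) - ((b j : W) : ℝ)| < ε / (M * N) ∧ (j = i0 → r = 1) := by
    intro j
    by_cases hj : j = i0
    · refine ⟨1, ?_, fun _ => rfl⟩
      subst hj
      rw [hb0]
      simp only [Rat.cast_one, sub_self, abs_zero]
      positivity
    · obtain ⟨r, hr1, hr2⟩ := exists_rat_btwn
        (show ((b j : W) : ℝ) - ε / (M * N) < ((b j : W) : ℝ) + ε / (M * N) by
          have : 0 < ε / (M * N) := by positivity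
          linarith)
      refine ⟨r, ?_, fun h => absurd h hj⟩
      rw [abs_lt]; constructor <;> linarith
  choose r hr hr0 using happ
  let φW : W →ₗ[ℚ] ℚ := b.constr ℚ r
  obtain ⟨φ, hφ⟩ := LinearMap.exists_extend φW
  have hφW : ∀ w : W, φ w = φW w := fun w => by
    rw [← hφ]; rfl
  refine ⟨φ, ?_, ?_⟩
  · have h1 := hφW ⟨1, h1W⟩
    rw [← hb0] at h1
    rw [hb0] at h1
    have h2 : φW ⟨1, h1W⟩ = r i0 := by
      rw [← hb0]; exact b.constr_basis ℚ r i0
    rw [show φ 1 = φW ⟨1, h1W⟩ from h1, h2, hr0 i0 rfl]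
  · intro i
    have h1 := hφW ⟨x i, hxW i⟩
    have h2 : φW ⟨x i, hxW i⟩ = ∑ j, b.repr ⟨x i, hxW i⟩ j * r j := by
      have h0 := b.constr_apply_fintype ℚ r ⟨x i, hxW i⟩
      refine h0.trans (Finset.sum_congr rfl fun j _ => ?_)
      rw [b.equivFun_apply, smul_eq_mul]
    have h3 : (x i : ℝ) = ∑ j, ((b.repr ⟨x i, hxW i⟩ j : ℚ) : ℝ) * ((b j : W) : ℝ) := by
      have h4 := b.sum_repr ⟨x i, hxW i⟩
      have h5 : ((∑ j, (b.repr ⟨x i, hxW i⟩) j • b j : W) : ℝ) = x i := congrArg Subtype.val h4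
      refine h5.symm.trans ?_
      rw [Submodule.coe_sum]
      refine Finset.sum_congr rfl fun j _ => ?_
      rw [Submodule.coe_smul, Rat.smul_def]
    have h6 : |((φW ⟨x i, hxW i⟩ : ℚ) : ℝ) - x i| < ε := by
      rw [h2]
      push_cast
      nth_rewrite 2 [h3]
      rw [← Finset.sum_sub_distrib]
      refine (Finset.abs_sum_le_sum_abs _ _).trans_lt ?_
      have h7 : ∀ j, |((b.repr ⟨x i, hxW i⟩ j : ℚ) : ℝ) * (r j : ℝ) -
          ((b.repr ⟨x i, hxW i⟩ j : ℚ) : ℝ) * ((b j : W) : ℝ)| ≤ ε / N := by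
        intro j
        rw [← mul_sub, abs_mul]
        calc |((b.repr ⟨x i, hxW i⟩ j : ℚ) : ℝ)| * |(r j : ℝ) - ((b j : W) : ℝ)|
            ≤ M * (ε / (M * N)) :=
              mul_le_mul (hM i j) (hr j).le (abs_nonneg _) hM0.le
          _ = ε / N := by field_simp
      refine (Finset.sum_le_sum fun j _ => h7 j).trans_lt ?_
      rw [Finset.sum_const, nsmul_eq_mul, Finset.card_univ]
      have h8 : (Fintype.card (hli.extend (Set.subset_univ _)) : ℝ) * (ε / N) =
          ε * ((Fintype.card (hli.extend (Set.subset_univ _)) : ℝ) / N) := by ring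
      rw [h8]
      have h9 : (Fintype.card (hli.extend (Set.subset_univ _)) : ℝ) / N < 1 := by
        rw [div_lt_one hN0, hN]; linarith
      nlinarith
    rw [show φ (x i) = φW ⟨x i, hxW i⟩ from h1]
    exact h6

/-- A real vector which is a limit of `g / N`, `g ∈ G`, lies in the real span of `G`. -/
theorem mem_span_of_limit {E : Type} [Fintype E] (G : AddSubgroup (E → ℤ)) (P : E → ℝ)
    (C : ℝ) (h : ∀ R : ℕ, ∃ g ∈ G, ∃ N : ℕ, R ≤ N ∧ 0 < N ∧ ∀ i, |(g i : ℝ) - N * P i| ≤ C) :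
    P ∈ Submodule.span ℝ {w : E → ℝ | ∃ g ∈ G, w = fun i => (g i : ℝ)} := by
  classical
  set S := Submodule.span ℝ {w : E → ℝ | ∃ g ∈ G, w = fun i => (g i : ℝ)} with hS
  have hclosed : IsClosed (S : Set (E → ℝ)) := S.closed_of_finiteDimensional
  have hmem : P ∈ closure (S : Set (E → ℝ)) := by
    rw [Metric.mem_closure_iff]
    intro ε hε
    obtain ⟨R, hR⟩ := exists_nat_gt ((|C| + 1) / ε)
    obtain ⟨g, hg, N, hRN, hN0, hgN⟩ := h R
    have hN : (0 : ℝ) < N := by exact_mod_cast hN0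
    refine ⟨fun i => (N : ℝ)⁻¹ * g i, ?_, ?_⟩
    · have : (fun i => (N : ℝ)⁻¹ * g i) = (N : ℝ)⁻¹ • (fun i => (g i : ℝ)) := rfl
      rw [this]
      exact S.smul_mem _ (Submodule.subset_span ⟨g, hg, rfl⟩)
    · rw [dist_pi_lt_iff hε]
      intro i
      rw [Real.dist_eq]
      have h1 : P i - (N : ℝ)⁻¹ * g i = -((N : ℝ)⁻¹ * ((g i : ℝ) - N * P i)) := by
        field_simp; ring
      rw [h1, abs_neg, abs_mul, abs_of_pos (inv_pos.2 hN)]
      have h2 := hgN i
      have h3 : |(g i : ℝ) - N * P i| ≤ |C| + 1 - 1 := by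
        have := le_abs_self C
        linarith
      have h4 : (R : ℝ) ≤ N := by exact_mod_cast hRN
      have h5 : (|C| + 1) / ε < N := hR.trans_le h4
      rw [div_lt_iff₀ hε] at h5
      rw [inv_mul_lt_iff₀ hN]
      linarith
  have := hclosed.closure_eq ▸ hmem
  exact this

/-- Elements of the rational span have integral multiples in the group. -/
theorem exists_mul_mem {E : Type} (G : AddSubgroup (E → ℤ)) (w : E → ℚ)
    (hw : w ∈ Submodule.span ℚ {w : E → ℚ | ∃ g ∈ G, w = fun i => (g i : ℚ)}) :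
    ∃ N : ℕ, 0 < N ∧ ∃ g ∈ G, ∀ i, (N : ℚ) * w i = g i := by
  refine Submodule.span_induction (p := fun w _ => ∃ N : ℕ, 0 < N ∧ ∃ g ∈ G,
    ∀ i, (N : ℚ) * w i = g i) ?_ ?_ ?_ ?_ hw
  · rintro _ ⟨g, hg, rfl⟩
    exact ⟨1, one_pos, g, hg, fun i => by simp⟩
  · exact ⟨1, one_pos, 0, G.zero_mem, fun i => by simp⟩
  · rintro a b _ _ ⟨N, hN, g, hg, h⟩ ⟨N', hN', g', hg', h'⟩
    refine ⟨N * N', Nat.mul_pos hN hN', N' • g + N • g',
      G.add_mem (G.nsmul_mem hg _) (G.nsmul_mem hg' _), fun i => ?_⟩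
    have e1 : ((N' • g + N • g') i : ℤ) = (N' : ℤ) * g i + (N : ℤ) * g' i := by
      simp
    rw [e1]
    push_cast
    rw [← h i, ← h' i, Pi.add_apply]
    ring
  · rintro q a _ ⟨N, hN, g, hg, h⟩
    refine ⟨q.den * N, Nat.mul_pos q.den_pos hN, q.num • g, G.zsmul_mem hg _, fun i => ?_⟩
    have e1 : ((q.num • g) i : ℤ) = q.num * g i := by simp
    have h1 : (q.den : ℚ) * q = q.num := by
      rw [mul_comm]; exact_mod_cast Rat.mul_den_eq_num q
    rw [e1]
    push_cast
    rw [← h i, ← h1, Pi.smul_apply, smul_eq_mul]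
    ring

/-- RAT. `c a e` integers; real vectors `P a = (c a e * x e)` (with `x l = 1` for the
coordinate of the line at infinity) in the real span of `G`. -/
theorem rat {E A : Type} [Fintype E] [Fintype A] (G : AddSubgroup (E → ℤ)) (x : E → ℝ)
    (hx : ∀ e, 0 < x e) (c : A → E → ℤ)
    (hP : ∀ a, (fun e => (c a e : ℝ) * x e) ∈
      Submodule.span ℝ {w : E → ℝ | ∃ g ∈ G, w = fun i => (g i : ℝ)}) :
    ∃ (M : ℕ) (y : E → ℕ), 0 < M ∧ (∀ e, 0 < y e) ∧ (∀ e, x e = 1 → y e = M) ∧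
      (∀ e, M * x e / 2 ≤ y e ∧ (y e : ℝ) ≤ 2 * (M * x e)) ∧
      ∀ a, (fun e => c a e * (y e : ℤ)) ∈ G := by
  classical
  obtain ⟨ε, hε0, hε⟩ : ∃ ε : ℝ, 0 < ε ∧ ∀ e, ε ≤ x e / 2 := by
    cases isEmpty_or_nonempty E with
    | inl h => exact ⟨1, one_pos, fun e => h.elim e⟩
    | inr h =>
      obtain ⟨e, he⟩ := Finite.exists_min x
      exact ⟨x e / 2, half_pos (hx e), fun e' => by have := he e'; linarith⟩
  obtain ⟨φ, hφ1, hφ⟩ := exists_rat_functional (Fintype.card E)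
    (fun i => x ((Fintype.equivFin E).symm i)) ε hε0
  have hφd : ∀ e, |((φ (x e) : ℚ) : ℝ) - x e| < x e / 2 := fun e => by
    have h1 := hφ (Fintype.equivFin E e)
    have h2 := hε e
    simp only [Equiv.symm_apply_apply] at h1
    linarith
  have hφx : ∀ e, 0 < φ (x e) := fun e => by
    have h1 := hφd e
    rw [abs_lt] at h1
    have h2 := hx e
    have h3 : (0 : ℝ) < ((φ (x e) : ℚ) : ℝ) := by linarith
    exact_mod_cast h3
  -- rational span
  have hspan : ∀ w ∈ Submodule.span ℝ {w : E → ℝ | ∃ g ∈ G, w = fun i => (g i : ℝ)}, ∀ t : ℝ,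
      (fun e => φ (t * w e)) ∈ Submodule.span ℚ {w : E → ℚ | ∃ g ∈ G, w = fun i => (g i : ℚ)} := by
    intro w hw
    refine Submodule.span_induction (p := fun w _ => ∀ t : ℝ, (fun e => φ (t * w e)) ∈
      Submodule.span ℚ {w : E → ℚ | ∃ g ∈ G, w = fun i => (g i : ℚ)}) ?_ ?_ ?_ ?_ hw
    · rintro _ ⟨g, hg, rfl⟩ t
      have h1 : (fun e => φ (t * (g e : ℝ))) = (φ t) • fun e => ((g e : ℤ) : ℚ) := by
        funext e
        have h2 : t * ((g e : ℤ) : ℝ) = ((g e : ℚ)) • t := by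
          rw [Rat.smul_def, mul_comm]; simp
        rw [h2, map_smul, Pi.smul_apply, smul_eq_mul, smul_eq_mul, mul_comm]
      rw [h1]
      exact Submodule.smul_mem _ _ (Submodule.subset_span ⟨g, hg, rfl⟩)
    · intro t
      have : (fun e => φ (t * (0 : E → ℝ) e)) = 0 := by funext e; simp
      rw [this]; exact Submodule.zero_mem _
    · intro a b _ _ ha hb t
      have : (fun e => φ (t * (a + b) e)) = (fun e => φ (t * a e)) + fun e => φ (t * b e) := by
        funext e; simp [mul_add]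
      rw [this]; exact Submodule.add_mem _ (ha t) (hb t)
    · intro s a _ ha t
      have : (fun e => φ (t * (s • a) e)) = fun e => φ ((t * s) * a e) := by
        funext e; simp [mul_assoc]
      rw [this]; exact ha _
  have hQ : ∀ a, ∃ N : ℕ, 0 < N ∧ ∃ g ∈ G, ∀ e, (N : ℚ) * ((c a e : ℚ) * φ (x e)) = g e := by
    intro a
    refine exists_mul_mem G _ ?_
    have h1 := hspan _ (hP a) 1
    have h2 : (fun e => φ (1 * ((c a e : ℝ) * x e))) = fun e => (c a e : ℚ) * φ (x e) := by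
      funext e
      have h3 : (1 : ℝ) * ((c a e : ℝ) * x e) = ((c a e : ℚ)) • x e := by
        rw [Rat.smul_def, one_mul]; simp
      rw [h3, map_smul, smul_eq_mul]
    rw [h2] at h1
    exact h1
  choose N hN g hg hgN using hQ
  -- the common multiple
  let Dn : ℕ := ∏ e, (φ (x e)).den
  have hDn : 0 < Dn := Finset.prod_pos fun e _ => (φ (x e)).den_pos
  let M : ℕ := Dn * ∏ a, N a
  have hM : 0 < M := Nat.mul_pos hDn (Finset.prod_pos fun a _ => hN a)
  have hy : ∀ e, ∃ y : ℕ, 0 < y ∧ (y : ℚ) = M * φ (x e) := by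
    intro e
    obtain ⟨r, hr⟩ : (φ (x e)).den ∣ M :=
      Dvd.dvd.mul_right (Finset.dvd_prod_of_mem _ (Finset.mem_univ e)) _
    have hnum : 0 < (φ (x e)).num := Rat.num_pos.2 (hφx e)
    have hr0 : 0 < r := Nat.pos_of_ne_zero fun h => by
      rw [h, mul_zero] at hr; omega
    refine ⟨r * (φ (x e)).num.toNat, Nat.mul_pos hr0 (by omega), ?_⟩
    have h1 : (((φ (x e)).num.toNat : ℕ) : ℚ) = ((φ (x e)).num : ℚ) := by
      have : (((φ (x e)).num.toNat : ℕ) : ℤ) = (φ (x e)).num := Int.toNat_of_nonneg hnum.le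
      exact_mod_cast congrArg (Int.cast : ℤ → ℚ) this
    have h2 : ((φ (x e)).den : ℚ) * φ (x e) = (φ (x e)).num := by
      rw [mul_comm]; exact_mod_cast Rat.mul_den_eq_num _
    rw [hr]
    push_cast
    rw [h1, ← h2]; ring
  choose y hy0 hyM using hy
  refine ⟨M, y, hM, hy0, ?_, ?_, ?_⟩
  · intro e he
    have h1 := hyM e
    rw [he, hφ1, mul_one] at h1
    exact_mod_cast h1
  · intro e
    have h1 : (y e : ℝ) = M * ((φ (x e) : ℚ) : ℝ) := by
      have := congrArg (Rat.cast : ℚ → ℝ) (hyM e)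
      push_cast at this
      exact this
    have h2 := hφd e
    rw [abs_lt] at h2
    have h3 : (0 : ℝ) < M := by exact_mod_cast hM
    rw [h1]
    constructor
    · nlinarith
    · nlinarith [hx e]
  · intro a
    have h1 : (fun e => c a e * (y e : ℤ)) = ((Dn * ∏ a' ∈ Finset.univ.erase a, N a' : ℕ)) • g a := by
      funext e
      have h2 := hgN a e
      have h3 : M = (Dn * ∏ a' ∈ Finset.univ.erase a, N a') * N a := by
        show Dn * ∏ a, N a = _
        rw [mul_assoc, Finset.prod_erase_mul _ _ (Finset.mem_univ a)]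
      have h4 : ((c a e * (y e : ℤ) : ℤ) : ℚ) =
          (((Dn * ∏ a' ∈ Finset.univ.erase a, N a' : ℕ)) • g a) e := by
        have e1 : ((((Dn * ∏ a' ∈ Finset.univ.erase a, N a' : ℕ)) • g a) e : ℤ) =
            ((Dn * ∏ a' ∈ Finset.univ.erase a, N a' : ℕ) : ℤ) * g a e := by simp
        rw [e1]
        push_cast
        rw [hyM e, h3, ← h2]
        push_cast
        ring
      exact_mod_cast h4
    rw [h1]
    exact G.nsmul_mem (hg a) _

/-- From differences of roundings to integral positive vectors: `D a n e` is at distance at most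
`1` from `n * (c a e * x e)` and every infinite set of indices contains `n < m` with
`D a m - D a n ∈ G`. -/
theorem rat_of_rounding {E A : Type} [Fintype E] [Fintype A] (G : AddSubgroup (E → ℤ)) (x : E → ℝ)
    (hx : ∀ e, 0 < x e) (c : A → E → ℤ) (D : A → ℕ → E → ℤ)
    (hD : ∀ a n e, |(D a n e : ℝ) - n * ((c a e : ℝ) * x e)| ≤ 1)
    (hG : ∀ a, ∀ I : Set ℕ, I.Infinite → ∃ n ∈ I, ∃ m ∈ I, n < m ∧ D a m - D a n ∈ G) :
    ∃ (M : ℕ) (y : E → ℕ), 0 < M ∧ (∀ e, 0 < y e) ∧ (∀ e, x e = 1 → y e = M) ∧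
      (∀ e, M * x e / 2 ≤ y e ∧ (y e : ℝ) ≤ 2 * (M * x e)) ∧
      ∀ a, (fun e => c a e * (y e : ℤ)) ∈ G := by
  refine rat G x hx c fun a => mem_span_of_limit G _ 2 fun R => ?_
  let I : Set ℕ := {n | ∃ j, n = j * (R + 1)}
  have hI : I.Infinite := by
    refine Set.infinite_of_injective_forall_mem (f := fun j : ℕ => j * (R + 1)) ?_
      (fun j => ⟨j, rfl⟩)
    intro i j h
    exact Nat.eq_of_mul_eq_mul_right (Nat.succ_pos R) h
  obtain ⟨n, ⟨i, rfl⟩, m, ⟨j, rfl⟩, hnm, hg⟩ := hG a I hI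
  refine ⟨_, hg, j * (R + 1) - i * (R + 1), ?_, by omega, fun e => ?_⟩
  · have hij : i < j := lt_of_mul_lt_mul_right hnm (Nat.zero_le _)
    rw [← Nat.sub_mul]
    have : 1 ≤ j - i := by omega
    nlinarith
  · have h1 := hD a (j * (R + 1)) e
    have h2 := hD a (i * (R + 1)) e
    rw [Nat.cast_sub hnm.le]
    simp only [Pi.sub_apply, Int.cast_sub]
    rw [abs_le] at h1 h2 ⊢
    constructor <;> linarith [h1.1, h1.2, h2.1, h2.2]

end Pool.Agent.H83
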