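import Mathlib

/-!
# Frobenius semilinear maps: fixed vectors
-/

set_option autoImplicit false

namespace Pool.Agent.H83

open Polynomial

section

variable {k V : Type*} [Field k] [AddCommGroup V] [Module k V]

/-- The fixed vectors of a semilinear map on a finite dimensional space form a finite set. -/
theorem fix_finite [FiniteDimensional k V] (q : ℕ) (σ : V → V)
    (hadd : ∀ u v, σ (u + v) = σ u + σ v) (hσ : ∀ (c : k) v, σ (c • v) = c ^ q • σ v)
    (hq : {c : k | c ^ q = c}.Finite) : {v : V | σ v = v}.Finite := by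
  classical
  have h0 : σ 0 = 0 := by
    have h := hadd 0 0
    rw [add_zero] at h
    exact left_eq_add.mp h
  have hsum : ∀ (ι : Type _) (s : Finset ι) (g : ι → V), σ (∑ i ∈ s, g i) = ∑ i ∈ s, σ (g i) := by
    intro ι s g
    induction s using Finset.induction_on with
    | empty => simpa using h0
    | insert a s ha ih => rw [Finset.sum_insert ha, Finset.sum_insert ha, hadd, ih]
  obtain ⟨b, hbW, hspan, hli⟩ := exists_linearIndependent k {v : V | σ v = v}
  have hbfin : Finite b := hli.finite
  have hbft : Fintype b := Fintype.ofFinite b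
  -- the coefficient vectors
  have hcoef : (Set.univ.pi fun _ : b => {c : k | c ^ q = c}).Finite := Set.Finite.pi fun _ => hq
  refine (hcoef.image fun c : b → k => ∑ i, c i • (i : V)).subset ?_
  intro v hv
  have hv1 : v ∈ Submodule.span k b := by
    rw [hspan]; exact Submodule.subset_span hv
  have hv2 : v ∈ Submodule.span k (Set.range fun i : b => (i : V)) := by
    simpa using hv1
  rw [Submodule.mem_span_range_iff_exists_fun] at hv2
  obtain ⟨c, hc⟩ := hv2
  refine ⟨c, ?_, hc⟩
  intro i _
  have h1 : σ v = ∑ i, (c i ^ q) • (i : V) := by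
    rw [← hc, hsum]
    refine Finset.sum_congr rfl fun i _ => ?_
    rw [hσ, show σ (i : V) = i from hbW i.2]
  have h2 : ∑ i, (c i ^ q) • (i : V) = ∑ i, c i • (i : V) := by
    rw [← h1, hc]; exact hv
  have h3 : ∑ i, (c i ^ q - c i) • (i : V) = 0 := by
    simp only [sub_smul, Finset.sum_sub_distrib]
    rw [h2, sub_self]
  have h4 := Fintype.linearIndependent_iff.1 hli _ h3 i
  exact sub_eq_zero.1 h4

/-- Existence of fixed vectors by a trace. -/
theorem exists_fixed [IsAlgClosed k] (p a : ℕ) [Fact p.Prime] [CharP k p] (ha : 1 ≤ a)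
    (σ : V → V) (hadd : ∀ u v, σ (u + v) = σ u + σ v)
    (hσ : ∀ (c : k) v, σ (c • v) = c ^ (p ^ a) • σ v)
    (W : Submodule k V) (hW : ∀ v ∈ W, σ v ∈ W)
    (v : V) (hv : v ≠ 0) (hvW : v ∈ W) (N : ℕ) (hN : 1 ≤ N) (hvN : σ^[N] v = v) :
    ∃ u ∈ W, u ≠ 0 ∧ σ u = u := by
  classical
  have hp : 1 < p := (Fact.out : p.Prime).one_lt
  have hp0 : 0 < p := by omega
  set q := p ^ a with hqdef
  have hq : 1 < q := Nat.one_lt_pow (by omega) hp
  have hsum : ∀ (s : Finset ℕ) (g : ℕ → V), σ (∑ i ∈ s, g i) = ∑ i ∈ s, σ (g i) := by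
    intro s g
    have h0 : σ 0 = 0 := by
      have h := hadd 0 0
      rw [add_zero] at h
      exact left_eq_add.mp h
    induction s using Finset.induction_on with
    | empty => simpa using h0
    | insert b s hb ih => rw [Finset.sum_insert hb, Finset.sum_insert hb, hadd, ih]
  have hiter : ∀ (j : ℕ) (c : k) (u : V), σ^[j] (c • u) = c ^ (q ^ j) • σ^[j] u := by
    intro j
    induction j with
    | zero => intro c u; simp
    | succ j ih =>
      intro c u
      rw [Function.iterate_succ_apply', ih, hσ, Function.iterate_succ_apply', ← pow_mul]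
      rfl
  have hiterW : ∀ (j : ℕ) (u : V), u ∈ W → σ^[j] u ∈ W := by
    intro j
    induction j with
    | zero => intro u hu; simpa using hu
    | succ j ih => intro u hu; rw [Function.iterate_succ_apply']; exact hW _ (ih u hu)
  -- a functional
  obtain ⟨lam, hlam⟩ : ∃ lam : V →ₗ[k] k, lam v ≠ 0 := by
    by_contra hcon
    push Not at hcon
    exact hv ((Module.forall_dual_apply_eq_zero_iff k v).1 hcon)
  -- the polynomial
  let Q : k[X] := ∑ j ∈ Finset.range N, C (lam (σ^[j] v)) * X ^ (q ^ j)
  have hQ1 : Q.coeff 1 = lam v := by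
    show (∑ j ∈ Finset.range N, C (lam (σ^[j] v)) * X ^ (q ^ j)).coeff 1 = _
    rw [finsetSum_coeff]
    rw [Finset.sum_eq_single 0]
    · simp
    · intro j _ hj
      rw [coeff_C_mul, coeff_X_pow, if_neg, mul_zero]
      intro h
      have h1 : 1 < q ^ j := Nat.one_lt_pow hj hq
      omega
    · intro h
      exact absurd (Finset.mem_range.2 (by omega)) h
  have hQ0 : Q ≠ 0 := by
    intro h
    rw [h, coeff_zero] at hQ1
    exact hlam hQ1.symm
  have hQdeg : Q.natDegree ≤ q ^ (N - 1) := by
    refine natDegree_sum_le_of_forall_le _ _ fun j hj => ?_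
    refine (natDegree_C_mul_X_pow_le _ _).trans ?_
    exact Nat.pow_le_pow_right (by omega) (by have := Finset.mem_range.1 hj; omega)
  -- a root of X ^ (q ^ N) - X which is not a root of Q
  obtain ⟨c, hc, hQc⟩ : ∃ c : k, c ^ (q ^ N) = c ∧ Q.eval c ≠ 0 := by
    by_contra hcon
    push Not at hcon
    let R : k[X] := X ^ (q ^ N) - X
    have hqN : 1 < q ^ N := Nat.one_lt_pow (by omega) hq
    have hR0 : R ≠ 0 := FiniteField.X_pow_card_sub_X_ne_zero k hqN
    have hsep : R.Separable := by
      have h1 : q ^ N = p ^ (a * N) := by rw [hqdef, pow_mul]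
      show (X ^ (q ^ N) - X : k[X]).Separable
      rw [h1]
      have h2 : ((p ^ (a * N) : ℕ) : k) = 0 := by
        rw [Nat.cast_pow, CharP.cast_eq_zero]
        exact zero_pow (by positivity)
      exact galois_poly_separable p _ (dvd_pow_self p (by positivity))
    have hcard : Fintype.card (R.rootSet k) = R.natDegree :=
      card_rootSet_eq_natDegree hsep (IsAlgClosed.splits _)
    have hdeg : R.natDegree = q ^ N := FiniteField.X_pow_card_sub_X_natDegree_eq k hqN
    have hzero : Q = 0 := by
      refine eq_zero_of_natDegree_lt_card_of_eval_eq_zero' Q (R.rootSet k).toFinset ?_ ?_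
      · intro c hc
        rw [Set.mem_toFinset, mem_rootSet] at hc
        apply hcon
        have h2 := hc.2
        simp only [R, map_sub, map_pow, aeval_X] at h2
        exact sub_eq_zero.1 h2
      · rw [Set.toFinset_card, hcard, hdeg]
        have h3 : q ^ (N - 1) < q ^ N := Nat.pow_lt_pow_right hq (by omega)
        omega
    exact hQ0 hzero
  -- the trace
  refine ⟨∑ j ∈ Finset.range N, σ^[j] (c • v), ?_, ?_, ?_⟩
  · exact Submodule.sum_mem _ fun j _ => hiterW j _ (W.smul_mem c hvW)
  · intro h
    apply hQc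
    have h1 := congrArg lam h
    rw [map_sum, map_zero] at h1
    show (∑ j ∈ Finset.range N, C (lam (σ^[j] v)) * X ^ (q ^ j)).eval c = 0
    rw [eval_finsetSum, ← h1]
    refine Finset.sum_congr rfl fun j _ => ?_
    rw [hiter, map_smul, smul_eq_mul, eval_mul, eval_C, eval_pow, eval_X, mul_comm]
  · rw [hsum]
    have h1 : ∀ j, σ (σ^[j] (c • v)) = σ^[j + 1] (c • v) := fun j =>
      (Function.iterate_succ_apply' σ j _).symm
    simp only [h1]
    have h2 : σ^[N] (c • v) = σ^[0] (c • v) := by
      rw [hiter, hvN, hc]; rfl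
    obtain ⟨M, rfl⟩ : ∃ M, N = M + 1 := ⟨N - 1, by omega⟩
    rw [Finset.sum_range_succ, h2, ← Finset.sum_range_succ' (fun j => σ^[j] (c • v)) M]

end

end Pool.Agent.H83
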