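import Mathlib

/-!
# Torsion of a doubly pseudo-effective divisor over a finite field (abstract form)

`v i` (`i : ι`) are the orders along the prime divisors of a normal projective variety with
function field `K` (values on nonzero elements only), `D : ι → ℤ` are the Weil divisors.
-/

namespace Pool.Agent.H83

open Set

variable {K : Type*} [Field K] {ι : Type*}

/-- `f` is a nonzero section of the divisor `D`. -/
def IsSec (v : ι → K → ℤ) (D : ι → ℤ) (f : K) : Prop :=
  f ≠ 0 ∧ ∀ i, -(D i) ≤ v i f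

theorem finite_box {ι : Type*} (B : ι → ℤ) (hB : (Function.support B).Finite) :
    {E : ι → ℤ | ∀ i, 0 ≤ E i ∧ E i ≤ B i}.Finite := by
  classical
  have hfin : Finite (Function.support B) := hB
  -- restriction to the support is injective on the set
  let r : (ι → ℤ) → (Function.support B → ℤ) := fun E i => E i.1
  have himg : (r '' {E : ι → ℤ | ∀ i, 0 ≤ E i ∧ E i ≤ B i}).Finite := by
    have h1 : (Set.Icc (0 : Function.support B → ℤ) (fun i => B i.1)).Finite := by
      have : Fintype (Function.support B) := Fintype.ofFinite _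
      exact Set.finite_Icc _ _
    refine h1.subset ?_
    rintro _ ⟨E, hE, rfl⟩
    exact ⟨fun i => (hE i.1).1, fun i => (hE i.1).2⟩
  refine Set.Finite.of_finite_image himg ?_
  intro E hE E' hE' h
  funext i
  by_cases hi : i ∈ Function.support B
  · exact congrFun h ⟨i, hi⟩
  · have hz : B i = 0 := by simpa using hi
    have h1 := hE i
    have h2 := hE' i
    rw [hz] at h1 h2
    exact (le_antisymm h1.2 h1.1).trans (le_antisymm h2.2 h2.1).symm

/-- TOR, core: sections of `C + D n` and of `C - D n` in a multiplicative set `S` in which the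
space of sections of `2 * C` is finite. -/
theorem tor_core_seq (v : ι → K → ℤ)
    (hmul : ∀ i f g, f ≠ 0 → g ≠ 0 → v i (f * g) = v i f + v i g)
    (hfin : ∀ f, f ≠ 0 → (Function.support fun i => v i f).Finite)
    (S : Set K) (hS : ∀ f ∈ S, ∀ g ∈ S, f * g ∈ S)
    (C : ι → ℤ) (D : ℕ → ι → ℤ) (hC : (Function.support C).Finite)
    (hL : {f : K | f ∈ S ∧ IsSec v (fun i => 2 * C i) f}.Finite)
    (hf : ∀ n : ℕ, ∃ f ∈ S, IsSec v (fun i => C i + D n i) f)
    (hh : ∀ n : ℕ, ∃ f ∈ S, IsSec v (fun i => C i - D n i) f)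
    (I : Set ℕ) (hI : I.Infinite) :
    ∃ n ∈ I, ∃ m ∈ I, n < m ∧ ∃ f : K, f ≠ 0 ∧ ∀ i, v i f = D m i - D n i := by
  classical
  choose f hfS hf using hf
  choose h hhS hh using hh
  let B : ι → ℤ := fun i => 2 * C i
  have hB : (Function.support B).Finite := by
    refine hC.subset ?_
    intro i hi hcon
    apply hi
    show 2 * C i = 0
    rw [show C i = 0 from hcon, mul_zero]
  -- the products lie in a finite set
  have hg : ∀ n, IsSec v B (f n * h n) := fun n => by
    refine ⟨mul_ne_zero (hf n).1 (hh n).1, fun i => ?_⟩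
    rw [hmul i _ _ (hf n).1 (hh n).1]
    have h1 := (hf n).2 i
    have h2 := (hh n).2 i
    show -(2 * C i) ≤ _
    simp only at h1 h2
    linarith
  -- the effective divisors
  let E : ℕ → ι → ℤ := fun n i => v i (f n) + (C i + D n i)
  let T : Set (ι → ℤ) := ⋃ g ∈ {g : K | g ∈ S ∧ IsSec v B g},
    {E : ι → ℤ | ∀ i, 0 ≤ E i ∧ E i ≤ v i g + B i}
  have hT : T.Finite := by
    refine hL.biUnion ?_
    intro g hg
    refine finite_box _ ?_
    exact ((hfin g hg.2.1).union hB).subset (Function.support_add _ _)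
  have hET : ∀ n, E n ∈ T := fun n => by
    refine Set.mem_biUnion (show f n * h n ∈ {g : K | g ∈ S ∧ IsSec v B g} from
      ⟨hS _ (hfS n) _ (hhS n), hg n⟩) ?_
    intro i
    have h1 := (hf n).2 i
    have h2 := (hh n).2 i
    simp only at h1 h2
    have h3 := hmul i _ _ (hf n).1 (hh n).1
    refine ⟨?_, ?_⟩
    · show 0 ≤ v i (f n) + (C i + D n i)
      linarith
    · show v i (f n) + (C i + D n i) ≤ v i (f n * h n) + (2 * C i)
      rw [h3]
      linarith
  have hinf : ∃ n ∈ I, ∃ m ∈ I, n < m ∧ E n = E m := by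
    have hTf : Finite T := hT
    have hIf : Infinite I := hI.to_subtype
    obtain ⟨n, m, hnm, h⟩ :=
      Finite.exists_ne_map_eq_of_infinite (fun n : I => (⟨E n, hET n⟩ : T))
    have h' : E n = E m := congrArg Subtype.val h
    have hnm' : (n : ℕ) ≠ m := fun h => hnm (Subtype.ext h)
    rcases lt_or_gt_of_ne hnm' with hlt | hlt
    · exact ⟨n, n.2, m, m.2, hlt, h'⟩
    · exact ⟨m, m.2, n, n.2, hlt, h'.symm⟩
  obtain ⟨n, hn, m, hm, hnm, hE⟩ := hinf
  refine ⟨n, hn, m, hm, hnm, f n * (f m)⁻¹, mul_ne_zero (hf n).1 (inv_ne_zero (hf m).1), ?_⟩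
  intro i
  have h1 : v i (f n) = v i (f n * (f m)⁻¹) + v i (f m) := by
    rw [← hmul i _ _ (mul_ne_zero (hf n).1 (inv_ne_zero (hf m).1)) (hf m).1]
    congr 1
    field_simp [(hf m).1]
  have h2 : v i (f n) + (C i + D n i) = v i (f m) + (C i + D m i) := congrFun hE i
  linarith

/-- TOR, core, for the multiples of one divisor. -/
theorem tor_core (v : ι → K → ℤ)
    (hmul : ∀ i f g, f ≠ 0 → g ≠ 0 → v i (f * g) = v i f + v i g)
    (hfin : ∀ f, f ≠ 0 → (Function.support fun i => v i f).Finite)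
    (S : Set K) (hS : ∀ f ∈ S, ∀ g ∈ S, f * g ∈ S)
    (C P : ι → ℤ) (hC : (Function.support C).Finite)
    (hL : {f : K | f ∈ S ∧ IsSec v (fun i => 2 * C i) f}.Finite)
    (hf : ∀ n : ℕ, ∃ f ∈ S, IsSec v (fun i => C i + n * P i) f)
    (hh : ∀ n : ℕ, ∃ f ∈ S, IsSec v (fun i => C i - n * P i) f) :
    ∃ m : ℕ, 1 ≤ m ∧ ∃ f : K, f ≠ 0 ∧ ∀ i, v i f = m * P i := by
  obtain ⟨n, -, m, -, hnm, f, hf0, hf⟩ := tor_core_seq v hmul hfin S hS C
    (fun n i => n * P i) hC hL hf hh Set.univ Set.infinite_univ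
  refine ⟨m - n, by omega, f, hf0, fun i => ?_⟩
  rw [hf, Nat.cast_sub hnm.le]
  ring

/-- TOR. -/
theorem tor (p : ℕ) (v : ι → K → ℤ)
    (hmul : ∀ i f g, f ≠ 0 → g ≠ 0 → v i (f * g) = v i f + v i g)
    (hfin : ∀ f, f ≠ 0 → (Function.support fun i => v i f).Finite)
    (hL : ∀ D : ι → ℤ, (Function.support D).Finite → {f : K | IsSec v D f}.Finite)
    (Δ : ι → ℤ) (hΔ : (Function.support Δ).Finite)
    (hUE : ∀ D : ι → ℤ, (Function.support D).Finite → ∀ e : ℕ,
      (∃ f, IsSec v (fun i => (p : ℤ) ^ e * D i) f) → ∃ f, IsSec v (fun i => D i + Δ i) f)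
    (C P : ι → ℤ) (hC : (Function.support C).Finite) (hP : (Function.support P).Finite)
    (hbig : ∀ n : ℕ, ∃ e : ℕ,
      (∃ f, IsSec v (fun i => (p : ℤ) ^ e * (C i + n * P i)) f) ∧
      (∃ f, IsSec v (fun i => (p : ℤ) ^ e * (C i - n * P i)) f)) :
    ∃ m : ℕ, 1 ≤ m ∧ ∃ f : K, f ≠ 0 ∧ ∀ i, v i f = m * P i := by
  have hnP : ∀ n : ℕ, (Function.support fun i => (n : ℤ) * P i).Finite := fun n =>
    hP.subset (fun i hi => by
      simp only [Function.mem_support, ne_eq, mul_eq_zero, not_or] at hi ⊢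
      exact hi.2)
  have hCΔ : (Function.support fun i => C i + Δ i).Finite :=
    (hC.union hΔ).subset (Function.support_add _ _)
  refine tor_core v hmul hfin Set.univ (fun _ _ _ _ => trivial) (fun i => C i + Δ i) P
    hCΔ ?_ ?_ ?_
  · refine (hL (fun i => 2 * (C i + Δ i)) (hCΔ.subset ?_)).subset fun f hf => hf.2
    intro i hi hcon
    apply hi
    show 2 * (C i + Δ i) = 0
    rw [show C i + Δ i = 0 from hcon, mul_zero]
  · intro n
    obtain ⟨e, h1, -⟩ := hbig n
    obtain ⟨f, hf0, hf⟩ := hUE _ ((hC.union (hnP n)).subset (Function.support_add _ _)) e h1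
    refine ⟨f, trivial, hf0, fun i => ?_⟩
    have := hf i
    simp only at this ⊢
    linarith
  · intro n
    obtain ⟨e, -, h1⟩ := hbig n
    obtain ⟨f, hf0, hf⟩ := hUE _ ((hC.union (hnP n)).subset (Function.support_sub _ _)) e h1
    refine ⟨f, trivial, hf0, fun i => ?_⟩
    have := hf i
    simp only at this ⊢
    linarith

end Pool.Agent.H83
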