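import Pool.Agent.H83.Ue
import Pool.Agent.H83.Semi
import Pool.Agent.SRF.Defs

/-!
# Torsion on a surface over an algebraic closure of a finite field
-/

set_option autoImplicit false

namespace Pool.Agent.H83

open Pool.Agent.SRF

section

variable (k : Type) {F : Type} [Field k] [IsAlgClosed k] [Field F] [Algebra k F] (x y : F)
  (q : ℕ) (σ : F ≃+* F)

/-- Coefficient Frobenius. -/
structure IsCFrob : Prop where
  q1 : 1 ≤ q
  const : ∀ c : k, σ (algebraMap k F c) = algebraMap k F (c ^ q)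
  hx : σ x = x
  hy : σ y = y

variable {k x y q σ}

theorem IsCFrob.symm_const (h : IsCFrob k x y q σ) (c : k) :
    ∃ c' : k, σ.symm (algebraMap k F c) = algebraMap k F c' := by
  obtain ⟨c', hc'⟩ := IsAlgClosed.exists_pow_nat_eq c (n := q) h.q1
  refine ⟨c', ?_⟩
  rw [RingEquiv.symm_apply_eq, h.const, hc']

theorem IsCFrob.apply_z (h : IsCFrob k x y q σ) (j : Fin 3) : σ (z x y j) = z x y j := by
  fin_cases j
  · exact map_one σ
  · exact h.hx
  · exact h.hy

theorem IsCFrob.symm_z (h : IsCFrob k x y q σ) (j : Fin 3) : σ.symm (z x y j) = z x y j := by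
  rw [RingEquiv.symm_apply_eq, h.apply_z]

theorem IsCFrob.base_mem (h : IsCFrob k x y q σ) (i : Fin 3) {f : F} (hf : f ∈ base k x y i) :
    σ f ∈ base k x y i := by
  refine Algebra.adjoin_induction (p := fun f _ => σ f ∈ base k x y i) ?_ ?_ ?_ ?_ hf
  · rintro _ ⟨j, rfl⟩
    have h1 : σ (z x y j / z x y i) = z x y j / z x y i := by
      rw [map_div₀, h.apply_z, h.apply_z]
    simp only
    rw [h1]
    exact Algebra.subset_adjoin ⟨j, rfl⟩
  · intro c
    rw [h.const]
    exact Subalgebra.algebraMap_mem _ _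
  · intro a b _ _ ha hb
    rw [map_add]; exact add_mem ha hb
  · intro a b _ _ ha hb
    rw [map_mul]; exact mul_mem ha hb

theorem IsCFrob.base_symm_mem (h : IsCFrob k x y q σ) (i : Fin 3) {f : F}
    (hf : f ∈ base k x y i) : σ.symm f ∈ base k x y i := by
  refine Algebra.adjoin_induction (p := fun f _ => σ.symm f ∈ base k x y i) ?_ ?_ ?_ ?_ hf
  · rintro _ ⟨j, rfl⟩
    have h1 : σ.symm (z x y j / z x y i) = z x y j / z x y i := by
      rw [map_div₀, h.symm_z, h.symm_z]
    simp only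
    rw [h1]
    exact Algebra.subset_adjoin ⟨j, rfl⟩
  · intro c
    obtain ⟨c', hc'⟩ := h.symm_const c
    rw [hc']
    exact Subalgebra.algebraMap_mem _ _
  · intro a b _ _ ha hb
    rw [map_add]; exact add_mem ha hb
  · intro a b _ _ ha hb
    rw [map_mul]; exact mul_mem ha hb

theorem mem_chart_of (i : Fin 3) (τ : F ≃+* F)
    (hτ : ∀ f ∈ base k x y i, τ f ∈ base k x y i) {f : F} (hf : f ∈ chart k x y i) :
    τ f ∈ chart k x y i := by
  change IsIntegral (base k x y i) f at hf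
  change IsIntegral (base k x y i) (τ f)
  let φ : base k x y i →+* base k x y i :=
    { toFun := fun b => ⟨τ b, hτ _ b.2⟩
      map_one' := Subtype.ext (by simp)
      map_mul' := fun a b => Subtype.ext (by simp)
      map_zero' := Subtype.ext (by simp)
      map_add' := fun a b => Subtype.ext (by simp) }
  exact IsIntegral.map_of_comp_eq φ (τ : F →+* F) (RingHom.ext fun b => rfl) hf

theorem IsCFrob.chart_mem (h : IsCFrob k x y q σ) (i : Fin 3) {f : F}
    (hf : f ∈ chart k x y i) : σ f ∈ chart k x y i :=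
  mem_chart_of i σ (fun _ hf => h.base_mem i hf) hf

theorem IsCFrob.chart_symm_mem (h : IsCFrob k x y q σ) (i : Fin 3) {f : F}
    (hf : f ∈ chart k x y i) : σ.symm f ∈ chart k x y i :=
  mem_chart_of i σ.symm (fun _ hf => h.base_symm_mem i hf) hf

theorem mem_comap_iff (O : ValuationSubring F) (f : F) :
    f ∈ O.comap (σ : F →+* F) ↔ σ f ∈ O := Iff.rfl

theorem dvr_comap (O : ValuationSubring F) (hO : IsDiscreteValuationRing O) :
    IsDiscreteValuationRing (O.comap (σ : F →+* F)) := by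
  let e : O ≃+* O.comap (σ : F →+* F) :=
    { toFun := fun a => ⟨σ.symm a, by
        rw [mem_comap_iff, RingEquiv.apply_symm_apply]; exact a.2⟩
      invFun := fun a => ⟨σ a, a.2⟩
      left_inv := fun a => Subtype.ext (by simp)
      right_inv := fun a => Subtype.ext (by simp)
      map_mul' := fun a b => Subtype.ext (by simp)
      map_add' := fun a b => Subtype.ext (by simp) }
  exact IsDiscreteValuationRing.RingEquivClass.isDiscreteValuationRing e

theorem IsCFrob.isPD_comap (h : IsCFrob k x y q σ) (O : ValuationSubring F)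
    (hO : IsPD k x y O) : IsPD k x y (O.comap (σ : F →+* F)) := by
  obtain ⟨h1, i, h2, h3⟩ := hO
  refine ⟨dvr_comap O h1, i, ?_, ?_⟩
  · intro f hf
    exact h2 (h.chart_mem i hf)
  · intro f hf
    obtain ⟨a, ha, b, hb, hb0, hbO, hab⟩ := h3 (σ f) hf
    refine ⟨σ.symm a, h.chart_symm_mem i ha, σ.symm b, h.chart_symm_mem i hb, ?_, ?_, ?_⟩
    · simpa using hb0
    · rw [mem_comap_iff, map_inv₀, RingEquiv.apply_symm_apply]; exact hbO
    · rw [← map_div₀, ← hab, RingEquiv.symm_apply_apply]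

/-- the action on prime divisors -/
noncomputable def IsCFrob.act (h : IsCFrob k x y q σ) (O : PP k x y) : PP k x y :=
  ⟨O.1.comap (σ : F →+* F), h.isPD_comap O.1 O.2⟩

theorem IsCFrob.ord_act (h : IsCFrob k x y q σ) (O : PP k x y) (f : F) :
    ord (h.act O).1 f = ord O.1 (σ f) := by
  have h1 : IsOrd (h.act O).1 (fun f => ord O.1 (σ f)) := by
    refine ⟨?_, ?_, ?_, ?_⟩
    · intro f g hf hg
      rw [map_mul, O.isOrd.mul _ _ (by simpa using hf) (by simpa using hg)]
    · intro f hf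
      exact O.isOrd.mem (σ f) (by simpa using hf)
    · obtain ⟨π, hπ0, hπ⟩ := O.isOrd.unif
      exact ⟨σ.symm π, by simpa using hπ0, by rw [RingEquiv.apply_symm_apply, hπ]⟩
    · rw [map_zero, O.isOrd.zero]
  exact congrFun ((h.act O).isOrd.unique h1) f

theorem IsCFrob.L_mem (h : IsCFrob k x y q σ) (D : PP k x y → ℤ)
    (hD : ∀ O, D (h.act O) = D O) {f : F} (hf : f ∈ L k x y D) : σ f ∈ L k x y D := by
  rw [mem_L] at hf ⊢
  rcases hf with rfl | hf
  · left; exact map_zero σ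
  · right
    intro O
    have h1 := hf (h.act O)
    rw [h.ord_act, hD] at h1
    exact h1

end

section

variable {k : Type} {F : Type} [Field k] [IsAlgClosed k] [Field F] [Algebra k F] {x y : F}
  {p a : ℕ} [Fact p.Prime] [CharP k p] {σ : F ≃+* F}

theorem pow_fix_finite (ha : 1 ≤ a) : {c : k | c ^ (p ^ a) = c}.Finite := by
  classical
  have hq : 1 < p ^ a := Nat.one_lt_pow (by omega) (Fact.out : p.Prime).one_lt
  have h0 : (Polynomial.X ^ (p ^ a) - Polynomial.X : Polynomial k) ≠ 0 :=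
    FiniteField.X_pow_card_sub_X_ne_zero k hq
  refine (Polynomial.rootSet_finite (Polynomial.X ^ (p ^ a) - Polynomial.X : Polynomial k) k).subset
    ?_
  intro c hc
  rw [Polynomial.mem_rootSet]
  refine ⟨h0, ?_⟩
  simp only [map_sub, map_pow, Polynomial.aeval_X]
  exact sub_eq_zero.2 hc

theorem IsCFrob.descend (ha : 1 ≤ a) (h : IsCFrob k x y (p ^ a) σ)
    (hσf : ∀ f, ∃ N, 1 ≤ N ∧ σ^[N] f = f) (D : PP k x y → ℤ) (hD : ∀ O, D (h.act O) = D O)
    (hex : ∃ f, IsSec (fun (O : PP k x y) f => ord O.1 f) D f) :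
    ∃ f ∈ {f : F | σ f = f}, IsSec (fun (O : PP k x y) f => ord O.1 f) D f := by
  obtain ⟨f, hf0, hf⟩ := hex
  obtain ⟨N, hN, hfN⟩ := hσf f
  obtain ⟨u, huL, hu0, hu⟩ := exists_fixed (k := k) p a ha (fun f => σ f)
    (fun u v => map_add σ u v)
    (fun c v => by
      simp only [Algebra.smul_def, map_mul]
      rw [h.const])
    (L k x y D) (fun v hv => h.L_mem D hD hv) f hf0 (Or.inr hf) N hN hfN
  exact ⟨u, hu, hu0, huL.resolve_left hu0⟩

theorem IsCFrob.finite_fix (ha : 1 ≤ a) (h : IsCFrob k x y (p ^ a) σ)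
    (D : PP k x y → ℤ) (hD : ∀ O, D (h.act O) = D O) (hfd : FiniteDimensional k (L k x y D)) :
    {f : F | f ∈ {f : F | σ f = f} ∧ IsSec (fun (O : PP k x y) f => ord O.1 f) D f}.Finite := by
  let τ : L k x y D → L k x y D := fun v => ⟨σ v, h.L_mem D hD v.2⟩
  have h1 := fix_finite (k := k) (V := L k x y D) (p ^ a) τ
    (fun u v => Subtype.ext (by simp [τ]))
    (fun c v => Subtype.ext (by
      show σ ((c • v : L k x y D) : F) = ((c ^ (p ^ a) • τ v : L k x y D) : F)
      rw [Submodule.coe_smul, Submodule.coe_smul]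
      simp only [Algebra.smul_def, map_mul]
      rw [h.const]))
    (pow_fix_finite ha)
  refine (h1.image Subtype.val).subset ?_
  rintro f ⟨hf1, hf2⟩
  exact ⟨⟨f, Or.inr hf2.2⟩, Subtype.ext hf1, rfl⟩

/-- TOR on a surface over an algebraic closure of a finite field, for a sequence of divisors. -/
theorem tor_surf_seq (ha : 1 ≤ a) (h : IsCFrob k x y (p ^ a) σ)
    (hσf : ∀ f, ∃ N, 1 ≤ N ∧ σ^[N] f = f)
    (hsup : ∀ f : F, f ≠ 0 → {O : PP k x y | ord O.1 f ≠ 0}.Finite)
    (hfdl : ∀ D : PP k x y → ℤ, (Function.support D).Finite → FiniteDimensional k (L k x y D))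
    (hfch : ∀ i, Pool.Agent.SRF.IsFChart p (chart k x y i))
    (C : PP k x y → ℤ) (D : ℕ → PP k x y → ℤ) (hC : (Function.support C).Finite)
    (hCσ : ∀ O, C (h.act O) = C O) (hDσ : ∀ n O, D n (h.act O) = D n O)
    (hbig : ∀ n : ℕ, ∃ e : ℕ,
      (∃ f : F, f ≠ 0 ∧ f ∈ L k x y (fun O => (p : ℤ) ^ e * (C O + D n O))) ∧
      (∃ f : F, f ≠ 0 ∧ f ∈ L k x y (fun O => (p : ℤ) ^ e * (C O - D n O))))
    (I : Set ℕ) (hI : I.Infinite) :
    ∃ n ∈ I, ∃ m ∈ I, n < m ∧
      ∃ f : F, f ≠ 0 ∧ ∀ O : PP k x y, ord O.1 f = D m O - D n O := by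
  classical
  have hcF : CharP F p := charP_of_injective_algebraMap (algebraMap k F).injective p
  let v : PP k x y → F → ℤ := fun O f => ord O.1 f
  have hmul : ∀ O f g, f ≠ 0 → g ≠ 0 → v O (f * g) = v O f + v O g :=
    fun O f g hf hg => O.isOrd.mul f g hf hg
  have hsurj : ∀ O, ∃ π : F, π ≠ 0 ∧ v O π = 1 := fun O => O.isOrd.unif
  have hfin : ∀ f, f ≠ 0 → (Function.support fun O => v O f).Finite := hsup
  have hR : ∀ i, IsFChart p (chart k x y i) := fun i => ⟨(hfch i).frac, (hfch i).fin⟩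
  have hloc : ∀ O : PP k x y, ∃ m : Fin 3, (∀ r ∈ chart k x y m, r ≠ 0 → 0 ≤ v O r) ∧
      ∀ f, f ≠ 0 → 0 ≤ v O f → ∃ a ∈ chart k x y m, ∃ b ∈ chart k x y m,
        b ≠ 0 ∧ v O b = 0 ∧ f = a / b := by
    intro O
    obtain ⟨-, i, h1, h2⟩ := O.2
    refine ⟨i, fun r hr hr0 => (O.isOrd.mem r hr0).1 (h1 hr), ?_⟩
    intro f hf hvf
    obtain ⟨a, ha, b, hb, hb0, hbO, hab⟩ := h2 f ((O.isOrd.mem f hf).2 hvf)
    refine ⟨a, ha, b, hb, hb0, ?_, hab⟩
    have h3 : 0 ≤ ord O.1 b := (O.isOrd.mem b hb0).1 (h1 hb)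
    have h4 : 0 ≤ ord O.1 b⁻¹ := (O.isOrd.mem _ (inv_ne_zero hb0)).1 hbO
    rw [O.isOrd.inv hb0] at h4
    show ord O.1 b = 0
    omega
  obtain ⟨d, hd, hd0, hue⟩ := ue_charts' p v hmul hsurj (fun i => chart k x y i) hR hloc
  -- invariant denominators
  have hinv : ∀ m, ∃ d', (∃ r ∈ chart k x y m, d' = r * d m) ∧ d' ≠ 0 ∧ σ d' = d' := by
    intro m
    obtain ⟨N, hN, hNd⟩ := hσf (d m)
    obtain ⟨M, rfl⟩ : ∃ M, N = M + 1 := ⟨N - 1, by omega⟩
    have hit : ∀ j, σ^[j] (d m) ∈ chart k x y m := by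
      intro j
      induction j with
      | zero => simpa using hd m
      | succ j ih => rw [Function.iterate_succ_apply']; exact h.chart_mem m ih
    have hit0 : ∀ j, σ^[j] (d m) ≠ 0 := by
      intro j
      induction j with
      | zero => simpa using hd0 m
      | succ j ih => rw [Function.iterate_succ_apply']; simpa using ih
    refine ⟨∏ j ∈ Finset.range (M + 1), σ^[j] (d m), ⟨∏ j ∈ Finset.range M, σ^[j + 1] (d m),
      Subring.prod_mem _ fun j _ => hit _, ?_⟩, Finset.prod_ne_zero_iff.2 fun j _ => hit0 j, ?_⟩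
    · rw [Finset.prod_range_succ']; rfl
    · rw [map_prod]
      have h5 : ∀ j, σ (σ^[j] (d m)) = σ^[j + 1] (d m) := fun j =>
        (Function.iterate_succ_apply' σ j _).symm
      simp only [h5]
      rw [Finset.prod_range_succ, Finset.prod_range_succ' (fun j => σ^[j] (d m)) M, hNd]
      rfl
  choose d' hd' hd'0 hd'σ using hinv
  let Δ : PP k x y → ℤ := fun O => 2 * ∑ m, |v O (d' m)|
  have hΔσ : ∀ O, Δ (h.act O) = Δ O := by
    intro O
    show 2 * ∑ m, |ord (h.act O).1 (d' m)| = 2 * ∑ m, |ord O.1 (d' m)|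
    congr 1
    refine Finset.sum_congr rfl fun m _ => ?_
    rw [h.ord_act, hd'σ]
  have hΔ : (Function.support Δ).Finite := by
    have h1 : (⋃ m, Function.support fun O => v O (d' m)).Finite :=
      Set.finite_iUnion fun m => hfin _ (hd'0 m)
    refine h1.subset ?_
    intro i hi
    by_contra hcon
    simp only [Set.mem_iUnion, Function.mem_support, ne_eq, not_exists, not_not] at hcon
    apply hi
    show 2 * ∑ m, |v i (d' m)| = 0
    rw [Finset.sum_eq_zero fun m _ => by rw [hcon m, abs_zero], mul_zero]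
  have hue' := hue d' hd' hd'0
  have hCΔ : (Function.support fun O => C O + Δ O).Finite :=
    (hC.union hΔ).subset (Function.support_add _ _)
  refine tor_core_seq v hmul hfin {f : F | σ f = f}
    (fun f hf g hg => by
      show σ (f * g) = f * g
      rw [map_mul, show σ f = f from hf, show σ g = g from hg])
    (fun O => C O + Δ O) D hCΔ ?_ ?_ ?_ I hI
  · refine h.finite_fix ha (fun O => 2 * (C O + Δ O)) ?_ (hfdl _ (hCΔ.subset ?_))
    · intro O; simp only [hCσ, hΔσ]
    · intro i hi hcon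
      apply hi
      show 2 * (C i + Δ i) = 0
      rw [show C i + Δ i = 0 from hcon, mul_zero]
  · intro n
    obtain ⟨e, ⟨f, hf0, hf⟩, -⟩ := hbig n
    have h1 := hue' (fun O => C O + D n O) e ⟨f, hf0, hf.resolve_left hf0⟩
    obtain ⟨f, hf, hf0, hf1⟩ := h.descend ha hσf (fun O => C O + D n O + Δ O)
      (fun O => by simp only [hCσ, hDσ, hΔσ]) h1
    refine ⟨f, hf, hf0, fun O => ?_⟩
    have := hf1 O
    simp only at this ⊢
    linarith
  · intro n
    obtain ⟨e, -, ⟨f, hf0, hf⟩⟩ := hbig n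
    have h1 := hue' (fun O => C O - D n O) e ⟨f, hf0, hf.resolve_left hf0⟩
    obtain ⟨f, hf, hf0, hf1⟩ := h.descend ha hσf (fun O => C O - D n O + Δ O)
      (fun O => by simp only [hCσ, hDσ, hΔσ]) h1
    refine ⟨f, hf, hf0, fun O => ?_⟩
    have := hf1 O
    simp only at this ⊢
    linarith

/-- TOR on a surface over an algebraic closure of a finite field. -/
theorem tor_surf (ha : 1 ≤ a) (h : IsCFrob k x y (p ^ a) σ)
    (hσf : ∀ f, ∃ N, 1 ≤ N ∧ σ^[N] f = f)
    (hsup : ∀ f : F, f ≠ 0 → {O : PP k x y | ord O.1 f ≠ 0}.Finite)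
    (hfdl : ∀ D : PP k x y → ℤ, (Function.support D).Finite → FiniteDimensional k (L k x y D))
    (hfch : ∀ i, Pool.Agent.SRF.IsFChart p (chart k x y i))
    (C P : PP k x y → ℤ) (hC : (Function.support C).Finite)
    (hCσ : ∀ O, C (h.act O) = C O) (hPσ : ∀ O, P (h.act O) = P O)
    (hbig : ∀ n : ℕ, ∃ e : ℕ,
      (∃ f : F, f ≠ 0 ∧ f ∈ L k x y (fun O => (p : ℤ) ^ e * (C O + n * P O))) ∧
      (∃ f : F, f ≠ 0 ∧ f ∈ L k x y (fun O => (p : ℤ) ^ e * (C O - n * P O)))) :
    ∃ m : ℕ, 1 ≤ m ∧ ∃ f : F, f ≠ 0 ∧ ∀ O : PP k x y, ord O.1 f = m * P O := by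
  obtain ⟨n, -, m, -, hnm, f, hf0, hf⟩ := tor_surf_seq ha h hσf hsup hfdl hfch C
    (fun n O => n * P O) hC hCσ (fun n O => by simp only [hPσ]) hbig Set.univ Set.infinite_univ
  refine ⟨m - n, by omega, f, hf0, fun O => ?_⟩
  rw [hf, Nat.cast_sub hnm.le]
  ring

end

end Pool.Agent.H83
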