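import Pool.Agent.H83.Tor

/-!
# Uniform effectivity: iterated Frobenius coordinates

If `p ^ e * D` has a nonzero section then `D + Δ` has one, with `Δ` independent of `D` and `e`.
-/

namespace Pool.Agent.H83

open Set

variable {K : Type*} [Field K] {ι : Type*}

theorem v_one (v : ι → K → ℤ)
    (hmul : ∀ i f g, f ≠ 0 → g ≠ 0 → v i (f * g) = v i f + v i g) (i : ι) : v i 1 = 0 := by
  have h := hmul i 1 1 one_ne_zero one_ne_zero
  rw [mul_one] at h
  linarith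

theorem v_inv (v : ι → K → ℤ)
    (hmul : ∀ i f g, f ≠ 0 → g ≠ 0 → v i (f * g) = v i f + v i g) (i : ι) (f : K) (hf : f ≠ 0) :
    v i f⁻¹ = -v i f := by
  have h := hmul i f f⁻¹ hf (inv_ne_zero hf)
  rw [mul_inv_cancel₀ hf, v_one v hmul] at h
  linarith

theorem v_pow (v : ι → K → ℤ)
    (hmul : ∀ i f g, f ≠ 0 → g ≠ 0 → v i (f * g) = v i f + v i g) (i : ι) (f : K) (hf : f ≠ 0)
    (n : ℕ) : v i (f ^ n) = n * v i f := by
  induction n with
  | zero => simp [v_one v hmul]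
  | succ n ih =>
    rw [pow_succ, hmul i _ _ (pow_ne_zero n hf) hf, ih]
    push_cast; ring

theorem v_zpow (v : ι → K → ℤ)
    (hmul : ∀ i f g, f ≠ 0 → g ≠ 0 → v i (f * g) = v i f + v i g) (i : ι) (f : K) (hf : f ≠ 0)
    (n : ℤ) : v i (f ^ n) = n * v i f := by
  obtain ⟨n, rfl | rfl⟩ := n.eq_nat_or_neg
  · rw [zpow_natCast, v_pow v hmul i f hf]
  · rw [zpow_neg, zpow_natCast, v_inv v hmul i _ (pow_ne_zero n hf), v_pow v hmul i f hf]
    ring

/-- UE, abstract form. -/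
theorem ue_abstract (p : ℕ) (hp : 2 ≤ p) (v : ι → K → ℤ)
    (hmul : ∀ i f g, f ≠ 0 → g ≠ 0 → v i (f * g) = v i f + v i g)
    (hsurj : ∀ i, ∃ π : K, π ≠ 0 ∧ v i π = 1)
    {J : Type*} (c : J → K → K) (hc : ∀ j s x, c j (s ^ p * x) = s * c j x)
    (hc0 : ∀ x, x ≠ 0 → ∃ j, c j x ≠ 0)
    (δ : ι → ℤ) (hδ0 : ∀ i, 0 ≤ δ i)
    (hδ : ∀ i j x, x ≠ 0 → 0 ≤ v i x → c j x ≠ 0 → -(δ i) ≤ v i (c j x))
    (D : ι → ℤ) (e : ℕ) (h : ∃ f, IsSec v (fun i => (p : ℤ) ^ e * D i) f) :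
    ∃ f, IsSec v (fun i => D i + 2 * δ i) f := by
  have key : ∀ e : ℕ, (∃ f, IsSec v (fun i => (p : ℤ) ^ e * D i + 2 * δ i) f) →
      ∃ f, IsSec v (fun i => D i + 2 * δ i) f := by
    intro e
    induction e with
    | zero => rintro ⟨f, hf⟩; exact ⟨f, hf.1, fun i => by have := hf.2 i; simpa using this⟩
    | succ e ih =>
      rintro ⟨f, hf0, hf⟩
      obtain ⟨j, hj⟩ := hc0 f hf0
      refine ih ⟨c j f, hj, fun i => ?_⟩
      obtain ⟨π, hπ0, hπ⟩ := hsurj i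
      set b : ℤ := (p : ℤ) ^ e * D i + δ i with hb
      have h1 : c j ((π ^ b) ^ p * f) = π ^ b * c j f := hc j _ _
      have hπb : π ^ b ≠ 0 := zpow_ne_zero b hπ0
      have h2 : v i ((π ^ b) ^ p * f) = p * b + v i f := by
        rw [hmul i _ _ (pow_ne_zero p hπb) hf0, v_pow v hmul i _ hπb, v_zpow v hmul i _ hπ0, hπ]
        ring
      have h3 : 0 ≤ v i ((π ^ b) ^ p * f) := by
        rw [h2]
        have h4 := hf i
        simp only at h4
        have h5 : (2 : ℤ) * δ i ≤ p * δ i :=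
          mul_le_mul_of_nonneg_right (by exact_mod_cast hp) (hδ0 i)
        have h6 : (p : ℤ) * b = (p : ℤ) ^ (e + 1) * D i + p * δ i := by rw [hb]; ring
        linarith
      have h7 := hδ i j _ (mul_ne_zero (pow_ne_zero p hπb) hf0) h3
        (by rw [h1]; exact mul_ne_zero hπb hj)
      rw [h1, hmul i _ _ hπb hj, v_zpow v hmul i _ hπ0, hπ] at h7
      show -((p : ℤ) ^ e * D i + 2 * δ i) ≤ v i (c j f)
      linarith
  obtain ⟨f, hf0, hf⟩ := h
  refine key e ⟨f, hf0, fun i => ?_⟩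
  have h1 := hf i
  have h2 := hδ0 i
  simp only at h1
  show -((p : ℤ) ^ e * D i + 2 * δ i) ≤ v i f
  linarith

/-- A finite chart of `K` for the Frobenius: `R` is finite over the ring of `p`-th powers and
`K` is its field of fractions. -/
structure IsFChart (p : ℕ) (R : Subring K) : Prop where
  frac : ∀ x : K, ∃ a ∈ R, ∃ b ∈ R, b ≠ 0 ∧ x = a / b
  fin : ∃ Y : Finset K, (∀ y ∈ Y, y ∈ R) ∧
    ∀ r ∈ R, ∃ s : K → K, (∀ y ∈ Y, s y ∈ R) ∧ r = ∑ y ∈ Y, s y ^ p * y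

theorem common_denom (R : Subring K)
    (frac : ∀ x : K, ∃ a ∈ R, ∃ b ∈ R, b ≠ 0 ∧ x = a / b) (T : Finset K) :
    ∃ d ∈ R, d ≠ 0 ∧ ∀ t ∈ T, d * t ∈ R := by
  classical
  induction T using Finset.induction_on with
  | empty => exact ⟨1, R.one_mem, one_ne_zero, by simp⟩
  | insert t T ht ih =>
    obtain ⟨d, hd, hd0, h⟩ := ih
    obtain ⟨a, ha, b, hb, hb0, hab⟩ := frac t
    refine ⟨d * b, R.mul_mem hd hb, mul_ne_zero hd0 hb0, ?_⟩
    intro x hx
    rcases Finset.mem_insert.1 hx with rfl | hx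
    · have : d * b * x = d * a := by rw [hab]; field_simp
      rw [this]; exact R.mul_mem hd ha
    · have : d * b * x = b * (d * x) := by ring
      rw [this]; exact R.mul_mem hb (h x hx)

/-- Frobenius coordinates of a field which has a chart. -/
theorem exists_coords (p : ℕ) [Fact p.Prime] [CharP K p] (R : Subring K) (hR : IsFChart p R) :
    ∃ (n : ℕ) (c : Fin n → K → K), (∀ j x y, c j (x + y) = c j x + c j y) ∧
      (∀ j s x, c j (s ^ p * x) = s * c j x) ∧ (∀ x, x ≠ 0 → ∃ j, c j x ≠ 0) := by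
  classical
  let K0 : Subfield K := (frobenius K p).fieldRange
  obtain ⟨Y, hY, hspan⟩ := hR.fin
  have hp : 0 < p := (Fact.out : p.Prime).pos
  have hfd : Module.Finite K0 K := by
    refine ⟨⟨Y, ?_⟩⟩
    rw [eq_top_iff]
    rintro x -
    obtain ⟨a, ha, b, hb, hb0, rfl⟩ := hR.frac x
    obtain ⟨s, hs, hr⟩ := hspan (a * b ^ (p - 1)) (R.mul_mem ha (R.pow_mem hb _))
    have h1 : a / b = ∑ y ∈ Y, (s y / b) ^ p * y := by
      have h2 : a / b = (a * b ^ (p - 1)) / b ^ p := by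
        rw [div_eq_div_iff hb0 (pow_ne_zero p hb0)]
        have h3 : b ^ p = b ^ (p - 1) * b := by rw [← pow_succ]; congr 1; omega
        rw [h3]; ring
      rw [h2, hr, Finset.sum_div]
      refine Finset.sum_congr rfl fun y _ => ?_
      rw [div_pow]; ring
    rw [h1]
    refine Submodule.sum_mem _ fun y hy => ?_
    have hmem : (s y / b) ^ p ∈ K0 := ⟨s y / b, rfl⟩
    exact Submodule.smul_mem _ (⟨(s y / b) ^ p, hmem⟩ : K0) (Submodule.subset_span hy)
  let b := Module.finBasis K0 K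
  let n := Module.finrank K0 K
  -- p-th root
  have hroot : ∀ z : K0, ∃ r : K, r ^ p = (z : K) := by
    rintro ⟨z, r, hr⟩
    exact ⟨r, by simpa [frobenius_def] using hr⟩
  choose rt hrt using hroot
  have hinj : ∀ x y : K, x ^ p = y ^ p → x = y := fun x y h => frobenius_inj K p h
  refine ⟨n, fun j x => rt (b.repr x j), ?_, ?_, ?_⟩
  · intro j x y
    apply hinj
    have h1 : (rt (b.repr x j) + rt (b.repr y j)) ^ p =
        rt (b.repr x j) ^ p + rt (b.repr y j) ^ p := add_pow_char _ _ p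
    show rt (b.repr (x + y) j) ^ p = (rt (b.repr x j) + rt (b.repr y j)) ^ p
    rw [h1, hrt, hrt, hrt, map_add, Finsupp.add_apply]
    rfl
  · intro j s x
    apply hinj
    show rt (b.repr (s ^ p * x) j) ^ p = (s * rt (b.repr x j)) ^ p
    rw [hrt, mul_pow, hrt]
    have hmem : s ^ p ∈ K0 := ⟨s, rfl⟩
    have h2 : s ^ p * x = (⟨s ^ p, hmem⟩ : K0) • x := rfl
    rw [h2, map_smul, Finsupp.smul_apply]
    rfl
  · intro x hx
    by_contra hcon
    push Not at hcon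
    apply hx
    have h0 : b.repr x = 0 := by
      ext j
      have h1 := hcon j
      have h2 := hrt (b.repr x j)
      have h3 : rt (b.repr x j) = 0 := h1
      rw [h3, zero_pow hp.ne'] at h2
      rw [← h2]; rfl
    simpa using h0

/-- UE for a family of prime divisors covered by finitely many charts; the elements `d m` may be
replaced by multiples. -/
theorem ue_charts' (p : ℕ) [Fact p.Prime] [CharP K p] (v : ι → K → ℤ)
    (hmul : ∀ i f g, f ≠ 0 → g ≠ 0 → v i (f * g) = v i f + v i g)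
    (hsurj : ∀ i, ∃ π : K, π ≠ 0 ∧ v i π = 1)
    {M : Type*} [Fintype M] [Nonempty M] (R : M → Subring K) (hR : ∀ m, IsFChart p (R m))
    (hloc : ∀ i, ∃ m, (∀ r ∈ R m, r ≠ 0 → 0 ≤ v i r) ∧
      ∀ x, x ≠ 0 → 0 ≤ v i x → ∃ a ∈ R m, ∃ b ∈ R m, b ≠ 0 ∧ v i b = 0 ∧ x = a / b) :
    ∃ d : M → K, (∀ m, d m ∈ R m) ∧ (∀ m, d m ≠ 0) ∧ ∀ d' : M → K,
      (∀ m, ∃ r ∈ R m, d' m = r * d m) → (∀ m, d' m ≠ 0) → ∀ D : ι → ℤ, ∀ e : ℕ,
      (∃ f, IsSec v (fun i => (p : ℤ) ^ e * D i) f) →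
        ∃ f, IsSec v (fun i => D i + 2 * ∑ m, |v i (d' m)|) f := by
  classical
  obtain ⟨n, c, hadd, hc, hc0⟩ := exists_coords p (R (Classical.arbitrary M)) (hR _)
  have hsum : ∀ j (Y : Finset K) (g : K → K), c j (∑ y ∈ Y, g y) = ∑ y ∈ Y, c j (g y) := by
    intro j Y g
    have h0 : c j 0 = 0 := by
      have := hadd j 0 0
      rw [add_zero] at this
      exact left_eq_add.mp this
    induction Y using Finset.induction_on with
    | empty => simpa using h0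
    | insert y Y hy ih => rw [Finset.sum_insert hy, Finset.sum_insert hy, hadd, ih]
  -- denominators
  have hden : ∀ m, ∃ d ∈ R m, d ≠ 0 ∧ ∀ j, ∀ r ∈ R m, d * c j r ∈ R m := by
    intro m
    obtain ⟨Y, hY, hspan⟩ := (hR m).fin
    obtain ⟨d, hd, hd0, h⟩ := common_denom (R m) (hR m).frac
      (Finset.univ.biUnion fun j : Fin n => Y.image (c j))
    refine ⟨d, hd, hd0, fun j r hr => ?_⟩
    obtain ⟨s, hs, rfl⟩ := hspan r hr
    rw [hsum, Finset.mul_sum]
    refine Subring.sum_mem _ fun y hy => ?_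
    rw [hc]
    have h1 : d * (s y * c j y) = s y * (d * c j y) := by ring
    rw [h1]
    refine (R m).mul_mem (hs y hy) (h _ ?_)
    exact Finset.mem_biUnion.2 ⟨j, Finset.mem_univ j, Finset.mem_image_of_mem _ hy⟩
  choose d hd hd0 hdc using hden
  refine ⟨d, hd, hd0, ?_⟩
  intro d' hd' hd'0 D e h
  let δ : ι → ℤ := fun i => ∑ m, |v i (d' m)|
  have hδ0 : ∀ i, 0 ≤ δ i := fun i => Finset.sum_nonneg fun m _ => abs_nonneg _
  have hδ : ∀ i j x, x ≠ 0 → 0 ≤ v i x → c j x ≠ 0 → -(δ i) ≤ v i (c j x) := by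
    intro i j x hx hvx hcx
    obtain ⟨m, hpos, hm⟩ := hloc i
    obtain ⟨a, ha, b, hb, hb0, hvb, rfl⟩ := hm x hx hvx
    have hp : 0 < p := (Fact.out : p.Prime).pos
    have ha0 : a ≠ 0 := fun h => hx (by rw [h, zero_div])
    have h1 : a / b = (b⁻¹) ^ p * (a * b ^ (p - 1)) := by
      have h3 : b ^ p = b ^ (p - 1) * b := by rw [← pow_succ]; congr 1; omega
      rw [inv_pow, h3]
      field_simp
    rw [h1, hc] at hcx ⊢
    have hr : a * b ^ (p - 1) ∈ R m := (R m).mul_mem ha ((R m).pow_mem hb _)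
    have hcr : c j (a * b ^ (p - 1)) ≠ 0 := right_ne_zero_of_mul hcx
    rw [hmul i _ _ (inv_ne_zero hb0) hcr, v_inv v hmul i b hb0, hvb]
    obtain ⟨r, hrm, hr'⟩ := hd' m
    have h6 : d' m * c j (a * b ^ (p - 1)) ∈ R m := by
      rw [hr', mul_assoc]
      exact (R m).mul_mem hrm (hdc m j _ hr)
    have h4 := hpos _ h6 (mul_ne_zero (hd'0 m) hcr)
    rw [hmul i _ _ (hd'0 m) hcr] at h4
    have h5 : v i (d' m) ≤ δ i :=
      (le_abs_self _).trans
        (Finset.single_le_sum (f := fun m => |v i (d' m)|) (fun m _ => abs_nonneg _)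
          (Finset.mem_univ m))
    linarith
  exact ue_abstract p (Fact.out : p.Prime).two_le v hmul hsurj c hc hc0 δ hδ0 hδ D e h

/-- UE for a family of prime divisors covered by finitely many charts. -/
theorem ue_charts (p : ℕ) [Fact p.Prime] [CharP K p] (v : ι → K → ℤ)
    (hmul : ∀ i f g, f ≠ 0 → g ≠ 0 → v i (f * g) = v i f + v i g)
    (hsurj : ∀ i, ∃ π : K, π ≠ 0 ∧ v i π = 1)
    (hfin : ∀ f, f ≠ 0 → (Function.support fun i => v i f).Finite)
    {M : Type*} [Fintype M] [Nonempty M] (R : M → Subring K) (hR : ∀ m, IsFChart p (R m))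
    (hloc : ∀ i, ∃ m, (∀ r ∈ R m, r ≠ 0 → 0 ≤ v i r) ∧
      ∀ x, x ≠ 0 → 0 ≤ v i x → ∃ a ∈ R m, ∃ b ∈ R m, b ≠ 0 ∧ v i b = 0 ∧ x = a / b) :
    ∃ Δ : ι → ℤ, (Function.support Δ).Finite ∧ ∀ D : ι → ℤ, ∀ e : ℕ,
      (∃ f, IsSec v (fun i => (p : ℤ) ^ e * D i) f) → ∃ f, IsSec v (fun i => D i + Δ i) f := by
  classical
  obtain ⟨d, hd, hd0, h⟩ := ue_charts' p v hmul hsurj R hR hloc
  have h1 : (⋃ m, Function.support fun i => v i (d m)).Finite :=
    Set.finite_iUnion fun m => hfin _ (hd0 m)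
  refine ⟨fun i => 2 * ∑ m, |v i (d m)|, h1.subset ?_, ?_⟩
  · intro i hi
    by_contra hcon
    simp only [Set.mem_iUnion, Function.mem_support, ne_eq, not_exists, not_not] at hcon
    apply hi
    show 2 * ∑ m, |v i (d m)| = 0
    rw [Finset.sum_eq_zero fun m _ => by rw [hcon m, abs_zero], mul_zero]
  · intro D e h2
    exact h d (fun m => ⟨1, (R m).one_mem, by rw [one_mul]⟩) hd0 D e h2

/-- TOR with charts: `P` and `-P` pseudo-effective over a finite field implies that a positive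
multiple of `P` is principal. -/
theorem tor_charts (p : ℕ) [Fact p.Prime] [CharP K p] (v : ι → K → ℤ)
    (hmul : ∀ i f g, f ≠ 0 → g ≠ 0 → v i (f * g) = v i f + v i g)
    (hsurj : ∀ i, ∃ π : K, π ≠ 0 ∧ v i π = 1)
    (hfin : ∀ f, f ≠ 0 → (Function.support fun i => v i f).Finite)
    (hL : ∀ D : ι → ℤ, (Function.support D).Finite → {f : K | IsSec v D f}.Finite)
    {M : Type*} [Fintype M] [Nonempty M] (R : M → Subring K) (hR : ∀ m, IsFChart p (R m))
    (hloc : ∀ i, ∃ m, (∀ r ∈ R m, r ≠ 0 → 0 ≤ v i r) ∧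
      ∀ x, x ≠ 0 → 0 ≤ v i x → ∃ a ∈ R m, ∃ b ∈ R m, b ≠ 0 ∧ v i b = 0 ∧ x = a / b)
    (C P : ι → ℤ) (hC : (Function.support C).Finite) (hP : (Function.support P).Finite)
    (hbig : ∀ n : ℕ, ∃ e : ℕ,
      (∃ f, IsSec v (fun i => (p : ℤ) ^ e * (C i + n * P i)) f) ∧
      (∃ f, IsSec v (fun i => (p : ℤ) ^ e * (C i - n * P i)) f)) :
    ∃ m : ℕ, 1 ≤ m ∧ ∃ f : K, f ≠ 0 ∧ ∀ i, v i f = m * P i := by
  obtain ⟨Δ, hΔ, hUE⟩ := ue_charts p v hmul hsurj hfin R hR hloc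
  exact tor p v hmul hfin hL Δ hΔ (fun D _ e h => hUE D e h) C P hC hP hbig

end Pool.Agent.H83
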